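import Mathlib
import Pool.Agent.TH551.SU.Stms

/-!
# Project ZP: multiplicatively dependent values of polynomials at S-unit points, statements
-/

set_option autoImplicit false

namespace Pool.Agent.TH551.ZP

open Filter Topology Pool.Agent.TH932.Germs Pool.Agent.TH551.SU

/-- exponents of the monomials of degree at most `m` in `n` variables -/
abbrev Ex (n m : ℕ) : Type := {a : Fin n → Fin (m + 1) // ∑ j, (a j : ℕ) ≤ m}

/-- the exponent as an element of `Fin n →₀ ℕ` -/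
noncomputable def ex {n m : ℕ} (a : Ex n m) : Fin n →₀ ℕ := Finsupp.equivFunOnFinite.symm fun j => (a.1 j : ℕ)

/-- the polynomial with coefficients `w` -/
noncomputable def toPoly {n m : ℕ} (w : Ex n m → ℚ) : MvPolynomial (Fin n) ℚ :=
  ∑ a, MvPolynomial.monomial (ex a) (w a)

/-- the rational number `x` is integral outside the primes `b v` -/
def IntS {s : ℕ} (b : Fin s → ℕ) (x : ℚ) : Prop :=
  ∃ (k : ℤ) (e : ℕ), x * (∏ v, (b v : ℚ)) ^ e = k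

/-- `GR`: bases of a space of vectors adapted to a weight on the coordinates -/
def GreedyStmt : Prop :=
  ∀ (ι : Type) [Fintype ι] [DecidableEq ι] (W : Submodule ℚ (ι → ℚ)),
    ∃ Ψ : Finset ι → ι → ι → ℚ, ∀ ω : ι → ℝ, ∃ C : Finset ι,
      C.card = Module.finrank ℚ W ∧ (∀ a ∈ C, Ψ C a ∈ W) ∧
      (∀ a ∈ C, ∀ a' ∈ C, Ψ C a a' = if a = a' then 1 else 0) ∧
      (∀ a ∈ C, ∀ c, Ψ C a c ≠ 0 → ω c ≤ ω a) ∧
      ∀ w ∈ W, (∀ a ∈ C, w a = 0) → w = 0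

/-- `DM`: the ideal generated by two coprime polynomials contains almost all polynomials of degree
at most `m` -/
def DimStmt : Prop :=
  ∀ (n : ℕ) (f g : MvPolynomial (Fin (n + 1)) ℚ) (_ : f ≠ 0) (_ : g ≠ 0) (_ : IsRelPrime f g)
    (K : ℕ), ∃ (m : ℕ) (_ : 1 ≤ m) (W : Submodule ℚ (Ex (n + 1) m → ℚ)),
      (∀ w ∈ W, ∃ p q : MvPolynomial (Fin (n + 1)) ℚ, toPoly w = p * f + q * g) ∧
      K * m * Fintype.card (Ex (n + 1) m) < (K * m + 1) * Module.finrank ℚ W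

/-- `GT`: the greatest common divisor of the values of two coprime polynomials at `S`-unit points is
small -/
def GcdStmt : Prop :=
  ∀ (s : ℕ) (b : Fin s → ℕ) (_ : ∀ v, (b v).Prime) (_ : Function.Injective b)
    (n : ℕ) (f g : MvPolynomial (Fin (n + 1)) ℚ) (_ : f ≠ 0) (_ : g ≠ 0) (_ : IsRelPrime f g)
    (X : ℕ → Fin (n + 2) → ℤ) (e : ℕ → Fin s → Fin (n + 2) → ℕ)
    (_ : ∀ t i, |(X t i : ℝ)| = ∏ v, (b v : ℝ) ^ (e t v i))
    (_ : ∀ t i v, (b v : ℤ) ^ (e t v i) ∣ X t i)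
    (u : ℕ → Fin (n + 1) → ℚ) (_ : ∀ t j, u t j = (X t (Fin.succ j) : ℚ) / (X t 0 : ℚ))
    (_ : ∀ φ : MvPolynomial (Fin (n + 1)) ℚ, φ ≠ 0 →
      ∀ᶠ t in atTop, MvPolynomial.aeval (u t) φ ≠ 0)
    (h : ℕ → ℝ) (_ : Tendsto h atTop atTop) (_ : ∀ t i, Real.log |(X t i : ℝ)| ≤ h t)
    (G : ℕ → ℤ) (_ : ∀ t v, IsCoprime (G t) (b v : ℤ))
    (_ : ∀ t, ∃ y : ℚ, IntS b y ∧ MvPolynomial.aeval (u t) f = (G t : ℚ) * y)
    (_ : ∀ t, ∃ y : ℚ, IntS b y ∧ MvPolynomial.aeval (u t) g = (G t : ℚ) * y)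
    (ε : ℝ) (_ : 0 < ε), ∀ᶠ t in atTop, |(G t : ℝ)| ≤ Real.exp (ε * h t)

/-- the differences of the exponents of the monomials of `f` span the space -/
def Full {n : ℕ} (f : MvPolynomial (Fin n) ℚ) : Prop :=
  ∀ c : Fin n → ℤ, (∀ a ∈ f.support, ∀ a' ∈ f.support,
    ∑ j, c j * ((a j : ℤ) - (a' j : ℤ)) = 0) → c = 0

/-- `NT`: the value of a polynomial at a germ of `S`-units is not a small number times an
`S`-unit -/
def FreeStmt : Prop :=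
  ∀ (s : ℕ) (b : Fin s → ℕ) (_ : ∀ v, (b v).Prime) (_ : Function.Injective b)
    (n : ℕ) (f : MvPolynomial (Fin (n + 1)) ℚ) (_ : Full f) (L : ℕ → ℝ)
    (hL : Tendsto L atTop atTop) (U : Fin (n + 1) → GG) (_ : ∀ j, GSU b (U j))
    (_ : ∀ φ : MvPolynomial (Fin (n + 1)) ℚ, φ ≠ 0 → MvPolynomial.aeval U φ ≠ 0)
    (_ : ∃ j, U j ∉ KK L hL) (N : GG) (_ : N ∈ KK L hL) (w : GG) (_ : GSU b w),
    MvPolynomial.aeval U f ≠ N * w

/-- `AR1`: a nonzero `S`-integer is a positive integer prime to `S` times an `S`-unit -/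
def DecompStmt : Prop :=
  ∀ (s : ℕ) (b : Fin s → ℕ) (_ : ∀ v, (b v).Prime) (_ : Function.Injective b) (x : ℚ)
    (_ : x ≠ 0) (_ : IntS b x),
    ∃ (N : ℕ) (w : ℚ), 0 < N ∧ IsSU b w ∧ x = N * w ∧ ∀ v, Nat.Coprime N (b v)

/-- `AR2`: in a multiplicative relation the number with the largest exponent divides the product of
its greatest common divisors with the others -/
def MaxExpStmt : Prop :=
  ∀ (s : ℕ) (b : Fin s → ℕ) (_ : ∀ v, (b v).Prime) (k : ℕ) (N : Fin k → ℕ) (_ : ∀ i, 0 < N i)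
    (_ : ∀ i v, Nat.Coprime (N i) (b v)) (B : Fin k → ℤ)
    (_ : IsSU b (∏ i, (N i : ℚ) ^ (B i))) (i : Fin k) (_ : B i ≠ 0) (_ : ∀ j, |B j| ≤ |B i|),
    N i ∣ ∏ j ∈ Finset.univ.erase i, Nat.gcd (N i) (N j)

/-- `AR3`: integral `S`-units -/
def IntUnitStmt : Prop :=
  ∀ (s : ℕ) (b : Fin s → ℕ) (_ : ∀ v, (b v).Prime) (_ : Function.Injective b) (z : ℤ)
    (_ : IsSU b (z : ℚ)), ∃ e : Fin s → ℕ, |(z : ℝ)| = ∏ v, (b v : ℝ) ^ (e v) ∧
      ∀ v, (b v : ℤ) ^ (e v) ∣ z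

/-- `AR4`: numerator and denominator of an `S`-unit -/
def NumDenStmt : Prop :=
  ∀ (s : ℕ) (b : Fin s → ℕ) (_ : ∀ v, (b v).Prime) (_ : Function.Injective b) (x : ℚ)
    (_ : IsSU b x), IsSU b (x.num : ℚ) ∧ IsSU b (x.den : ℚ)

end Pool.Agent.TH551.ZP
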