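import Mathlib
import Pool.Agent.TH551.ZP.Stms

/-!
# Project ZP: values of monomials at S-unit points, S-integers
-/

set_option autoImplicit false

namespace Pool.Agent.TH551.ZP.GT

open Filter Topology Pool.Agent.TH551.SU Pool.Agent.TH551.ZP

/-! ## S-integers -/

variable {s : ℕ} {b : Fin s → ℕ}

lemma IntS.int (b : Fin s → ℕ) (k : ℤ) : IntS b k := ⟨k, 0, by simp⟩

lemma IntS.add {x y : ℚ} (hx : IntS b x) (hy : IntS b y) : IntS b (x + y) := by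
  obtain ⟨k, e, h⟩ := hx
  obtain ⟨k', e', h'⟩ := hy
  refine ⟨k * (∏ v, (b v : ℤ)) ^ e' + k' * (∏ v, (b v : ℤ)) ^ e, e + e', ?_⟩
  push_cast
  rw [← h, ← h', pow_add]
  ring

lemma IntS.mul {x y : ℚ} (hx : IntS b x) (hy : IntS b y) : IntS b (x * y) := by
  obtain ⟨k, e, h⟩ := hx
  obtain ⟨k', e', h'⟩ := hy
  refine ⟨k * k', e + e', ?_⟩
  push_cast
  rw [← h, ← h', pow_add]
  ring

lemma IntS.pow {x : ℚ} (hx : IntS b x) (k : ℕ) : IntS b (x ^ k) := by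
  induction k with
  | zero => simpa using IntS.int b 1
  | succ k ih => rw [pow_succ]; exact IntS.mul ih hx

/-- inverses of integral units -/
lemma IntS.inv_int (hb : ∀ v, (b v).Prime) (z : ℤ) (e : Fin s → ℕ)
    (h : |(z : ℝ)| = ∏ v, (b v : ℝ) ^ (e v)) : IntS b ((z : ℚ)⁻¹) := by
  have h1 : ((|z| : ℤ) : ℝ) = ((∏ v, (b v : ℤ) ^ (e v) : ℤ) : ℝ) := by
    push_cast
    exact h
  have h2 : |z| = ∏ v, (b v : ℤ) ^ (e v) := by exact_mod_cast h1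
  have hb0 : ∀ v, (b v : ℤ) ≠ 0 := fun v => by exact_mod_cast (hb v).ne_zero
  have hz : z ≠ 0 := by
    intro h0
    rw [h0, abs_zero] at h2
    exact (Finset.prod_ne_zero_iff.2 fun v _ => pow_ne_zero _ (hb0 v)) h2.symm
  have h3 : z ∣ (∏ v, (b v : ℤ)) ^ (∑ v, e v) := by
    rw [← abs_dvd, h2, ← Finset.prod_pow]
    exact Finset.prod_dvd_prod_of_dvd _ _ fun v _ => pow_dvd_pow _
      (Finset.single_le_sum (f := e) (fun _ _ => Nat.zero_le _) (Finset.mem_univ v))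
  obtain ⟨k, hk⟩ := h3
  refine ⟨k, ∑ v, e v, ?_⟩
  have h4 : (∏ v, (b v : ℚ)) ^ (∑ v, e v) = (z : ℚ) * k := by exact_mod_cast hk
  rw [h4, inv_mul_cancel_left₀ (by exact_mod_cast hz)]

/-- divisibility by integers prime to `S` -/
lemma dvd_of_IntS {G Z : ℤ} (hG : ∀ v, IsCoprime G (b v : ℤ)) {y : ℚ} (hy : IntS b y)
    (h : (Z : ℚ) = G * y) : G ∣ Z := by
  obtain ⟨k, e, hk⟩ := hy
  have h1 : Z * (∏ v, (b v : ℤ)) ^ e = G * k := by
    have h2 : (Z : ℚ) * (∏ v, (b v : ℚ)) ^ e = G * k := by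
      rw [h, ← hk]
      ring
    exact_mod_cast h2
  have h2 : IsCoprime G ((∏ v, (b v : ℤ)) ^ e) := by
    refine IsCoprime.pow_right ?_
    exact IsCoprime.prod_right fun v _ => hG v
  exact h2.dvd_of_dvd_mul_right (Dvd.intro _ h1.symm)

/-- values of polynomials at S-integers are S-integers up to a constant -/
lemma exists_den {n : ℕ} (b : Fin s → ℕ) (p : MvPolynomial (Fin n) ℚ) :
    ∃ δ : ℕ, δ ≠ 0 ∧ ∀ u : Fin n → ℚ, (∀ j, IntS b (u j)) →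
      IntS b ((δ : ℚ) * MvPolynomial.aeval u p) := by
  induction p using MvPolynomial.induction_on with
  | C a =>
    refine ⟨a.den, a.den_ne_zero, fun u _ => ?_⟩
    rw [MvPolynomial.aeval_C]
    have h1 : (a.den : ℚ) * algebraMap ℚ ℚ a = a.num := by
      show (a.den : ℚ) * a = a.num
      rw [mul_comm, Rat.mul_den_eq_num]
    rw [h1]
    exact IntS.int b _
  | add p q hp hq =>
    obtain ⟨δ, hδ, h1⟩ := hp
    obtain ⟨δ', hδ', h2⟩ := hq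
    refine ⟨δ * δ', mul_ne_zero hδ hδ', fun u hu => ?_⟩
    have h3 : ((δ * δ' : ℕ) : ℚ) * MvPolynomial.aeval u (p + q) =
        ((δ' : ℤ) : ℚ) * ((δ : ℚ) * MvPolynomial.aeval u p) +
          ((δ : ℤ) : ℚ) * ((δ' : ℚ) * MvPolynomial.aeval u q) := by
      rw [map_add]
      push_cast
      ring
    rw [h3]
    exact IntS.add (IntS.mul (IntS.int b _) (h1 u hu)) (IntS.mul (IntS.int b _) (h2 u hu))
  | mul_X p i hp =>
    obtain ⟨δ, hδ, h1⟩ := hp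
    refine ⟨δ, hδ, fun u hu => ?_⟩
    rw [map_mul, MvPolynomial.aeval_X, ← mul_assoc]
    exact IntS.mul (h1 u hu) (hu i)

/-! ## monomials -/

variable {n m : ℕ}

/-- the value of a monomial at the point `X`, homogenised -/
def mu (X : Fin (n + 2) → ℤ) (a : Ex (n + 1) m) : ℤ :=
  X 0 ^ (m - ∑ j, (a.1 j : ℕ)) * ∏ j, X (Fin.succ j) ^ (a.1 j : ℕ)

/-- its exponents -/
def Ee (e : Fin (n + 2) → ℕ) (a : Ex (n + 1) m) : ℕ :=
  (m - ∑ j, (a.1 j : ℕ)) * e 0 + ∑ j, (a.1 j : ℕ) * e (Fin.succ j)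

lemma mu_dvd (X : Fin (n + 2) → ℤ) (β : ℤ) (e : Fin (n + 2) → ℕ) (h : ∀ i, β ^ (e i) ∣ X i)
    (a : Ex (n + 1) m) : β ^ (Ee e a) ∣ mu X a := by
  unfold Ee mu
  rw [pow_add, ← Finset.prod_pow_eq_pow_sum]
  refine mul_dvd_mul ?_ (Finset.prod_dvd_prod_of_dvd _ _ fun j _ => ?_)
  · rw [mul_comm, pow_mul]
    exact pow_dvd_pow_of_dvd (h 0) _
  · rw [mul_comm, pow_mul]
    exact pow_dvd_pow_of_dvd (h _) _

lemma mu_ne (X : Fin (n + 2) → ℤ) (h : ∀ i, X i ≠ 0) (a : Ex (n + 1) m) : mu X a ≠ 0 :=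
  mul_ne_zero (pow_ne_zero _ (h 0)) (Finset.prod_ne_zero_iff.2 fun _ _ => pow_ne_zero _ (h _))

lemma mu_log (X : Fin (n + 2) → ℤ) (h : ∀ i, X i ≠ 0) (a : Ex (n + 1) m) :
    Real.log |(mu X a : ℝ)| = ((m - ∑ j, (a.1 j : ℕ) : ℕ) : ℝ) * Real.log |(X 0 : ℝ)| +
      ∑ j, ((a.1 j : ℕ) : ℝ) * Real.log |(X (Fin.succ j) : ℝ)| := by
  have h0 : ∀ i, |(X i : ℝ)| ≠ 0 := fun i => abs_ne_zero.2 (by exact_mod_cast h i)
  unfold mu
  push_cast
  rw [abs_mul, abs_pow, Finset.abs_prod, Real.log_mul (pow_ne_zero _ (h0 0))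
    (Finset.prod_ne_zero_iff.2 fun j _ => by rw [abs_pow]; exact pow_ne_zero _ (h0 _)),
    Real.log_pow, Real.log_prod (fun j _ => by rw [abs_pow]; exact pow_ne_zero _ (h0 _))]
  congr 1
  refine Finset.sum_congr rfl fun j _ => ?_
  rw [abs_pow, Real.log_pow]

lemma mu_log_le (X : Fin (n + 2) → ℤ) (h : ∀ i, X i ≠ 0) (H : ℝ) 
    (hX : ∀ i, Real.log |(X i : ℝ)| ≤ H) (a : Ex (n + 1) m) :
    Real.log |(mu X a : ℝ)| ≤ m * H := by
  rw [mu_log X h]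
  have h1 : ∑ j, ((a.1 j : ℕ) : ℝ) * Real.log |(X (Fin.succ j) : ℝ)| ≤
      ∑ j, ((a.1 j : ℕ) : ℝ) * H :=
    Finset.sum_le_sum fun j _ => mul_le_mul_of_nonneg_left (hX _) (Nat.cast_nonneg _)
  have h2 : ((m - ∑ j, (a.1 j : ℕ) : ℕ) : ℝ) * Real.log |(X 0 : ℝ)| ≤
      ((m - ∑ j, (a.1 j : ℕ) : ℕ) : ℝ) * H :=
    mul_le_mul_of_nonneg_left (hX _) (Nat.cast_nonneg _)
  rw [← Finset.sum_mul] at h1
  have h3 : ((m - ∑ j, (a.1 j : ℕ) : ℕ) : ℝ) + ∑ j, ((a.1 j : ℕ) : ℝ) = m := by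
    have h4 : (m - ∑ j, (a.1 j : ℕ)) + ∑ j, (a.1 j : ℕ) = m := Nat.sub_add_cancel a.2
    exact_mod_cast h4
  calc _ ≤ ((m - ∑ j, (a.1 j : ℕ) : ℕ) : ℝ) * H + (∑ j, ((a.1 j : ℕ) : ℝ)) * H := add_le_add h2 h1
    _ = m * H := by rw [← add_mul, h3]

lemma mu_log_exp {s : ℕ} (b : Fin s → ℕ) (hb : ∀ v, (b v).Prime) (X : Fin (n + 2) → ℤ)
    (h : ∀ i, X i ≠ 0) (e : Fin s → Fin (n + 2) → ℕ)
    (hX : ∀ i, |(X i : ℝ)| = ∏ v, (b v : ℝ) ^ (e v i)) (a : Ex (n + 1) m) :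
    Real.log |(mu X a : ℝ)| = ∑ v, (Ee (e v) a : ℝ) * Real.log (b v) := by
  have hlX : ∀ i, Real.log |(X i : ℝ)| = ∑ v, (e v i : ℝ) * Real.log (b v) := by
    intro i
    rw [hX, Real.log_prod]
    · exact Finset.sum_congr rfl fun v _ => Real.log_pow _ _
    · intro v _
      have := (hb v).pos
      positivity
  rw [mu_log X h, hlX]
  simp only [hlX]
  unfold Ee
  rw [Finset.mul_sum]
  have h1 : ∑ j : Fin (n + 1), ((a.1 j : ℕ) : ℝ) * ∑ v, (e v (Fin.succ j) : ℝ) * Real.log (b v) =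
      ∑ v, (∑ j : Fin (n + 1), ((a.1 j : ℕ) : ℝ) * (e v (Fin.succ j) : ℝ)) * Real.log (b v) := by
    simp only [Finset.mul_sum]
    rw [Finset.sum_comm]
    refine Finset.sum_congr rfl fun v _ => ?_
    rw [Finset.sum_mul]
    refine Finset.sum_congr rfl fun j _ => ?_
    ring
  rw [h1, ← Finset.sum_add_distrib]
  refine Finset.sum_congr rfl fun v _ => ?_
  push_cast
  ring

lemma toPoly_eval (X : Fin (n + 2) → ℤ) (h : X 0 ≠ 0) (u : Fin (n + 1) → ℚ)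
    (hu : ∀ j, u j = (X (Fin.succ j) : ℚ) / (X 0 : ℚ)) (w : Ex (n + 1) m → ℚ) :
    ∑ a, w a * (mu X a : ℚ) = (X 0 : ℚ) ^ m * MvPolynomial.aeval u (toPoly w) := by
  unfold toPoly
  rw [map_sum, Finset.mul_sum]
  refine Finset.sum_congr rfl fun a _ => ?_
  rw [MvPolynomial.aeval_monomial]
  have h0 : (X 0 : ℚ) ≠ 0 := by exact_mod_cast h
  have h1 : (ex a).prod (fun i k => u i ^ k) = ∏ j, u j ^ (a.1 j : ℕ) := by
    rw [Finsupp.prod_fintype _ _ (fun i => pow_zero _)]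
    rfl
  rw [h1]
  show w a * (mu X a : ℚ) = (X 0 : ℚ) ^ m * (w a * ∏ j, u j ^ (a.1 j : ℕ))
  unfold mu
  push_cast
  simp only [hu, div_pow]
  rw [Finset.prod_div_distrib, Finset.prod_pow_eq_pow_sum]
  have h2 : (X 0 : ℚ) ^ m = (X 0 : ℚ) ^ (m - ∑ j, (a.1 j : ℕ)) * (X 0 : ℚ) ^ (∑ j, (a.1 j : ℕ)) := by
    rw [← pow_add, Nat.sub_add_cancel a.2]
  rw [h2]
  field_simp

lemma ex_inj : Function.Injective (ex : Ex n m → _) := by
  intro a a' h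
  apply Subtype.ext
  funext j
  have h1 := congrArg (fun z => z j) h
  exact Fin.ext h1

lemma toPoly_coeff (w : Ex n m → ℚ) (a : Ex n m) :
    MvPolynomial.coeff (ex a) (toPoly w) = w a := by
  classical
  unfold toPoly
  rw [MvPolynomial.coeff_sum, Finset.sum_eq_single a]
  · rw [MvPolynomial.coeff_monomial, if_pos rfl]
  · intro a' _ h
    rw [MvPolynomial.coeff_monomial, if_neg fun h1 => h (ex_inj h1)]
  · intro h
    exact absurd (Finset.mem_univ _) h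

end Pool.Agent.TH551.ZP.GT
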