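import Mathlib
import Pool.Agent.TH551.ZP.Stms
import Pool.Agent.TH551.SU.Ht

/-!
# Arithmetic of S-units
-/

set_option autoImplicit false

namespace Pool.Agent.TH551.ZP.AR

open Pool.Agent.TH551.SU Pool.Agent.TH551.ZP
open Pool.Agent.TH551.SU.Ht (IsSU.one IsSU.neg IsSU.mul IsSU.inv IsSU.base IsSU.nat)

theorem val_prod {ι : Type} (p : ℕ) [Fact p.Prime] (S : Finset ι) (f : ι → ℚ)
    (h : ∀ i ∈ S, f i ≠ 0) : padicValRat p (∏ i ∈ S, f i) = ∑ i ∈ S, padicValRat p (f i) := by
  classical
  induction S using Finset.induction_on with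
  | empty => simp
  | insert a S ha ih =>
    rw [Finset.prod_insert ha, Finset.sum_insert ha, padicValRat.mul
      (h a (Finset.mem_insert_self a S))
      (Finset.prod_ne_zero_iff.2 fun i hi => h i (Finset.mem_insert_of_mem hi)),
      ih fun i hi => h i (Finset.mem_insert_of_mem hi)]

theorem val_sign (p : ℕ) [Fact p.Prime] {σ : ℤ} (hσ : σ = 1 ∨ σ = -1) (x : ℚ) :
    padicValRat p (σ * x) = padicValRat p x := by
  rcases hσ with h | h
  · rw [h]
    simp
  · rw [h]
    push_cast
    rw [neg_one_mul, padicValRat.neg]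

theorem val_SU_prod {s : ℕ} {b : Fin s → ℕ} (hb : ∀ v, (b v).Prime) (p : ℕ) [Fact p.Prime]
    (e : Fin s → ℤ) :
    padicValRat p (∏ v, (b v : ℚ) ^ (e v)) = ∑ v, e v * padicValRat p (b v) := by
  rw [val_prod p Finset.univ _ (fun v _ => zpow_ne_zero _ (by exact_mod_cast (hb v).ne_zero))]
  exact Finset.sum_congr rfl fun v _ => padicValRat.zpow _

/-- at primes outside of `b` the valuation of an `S`-unit is zero -/
theorem val_SU_out {s : ℕ} {b : Fin s → ℕ} (hb : ∀ v, (b v).Prime) (p : ℕ) [hp : Fact p.Prime]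
    (hpb : ∀ v, b v ≠ p) {x : ℚ} (hx : IsSU b x) : padicValRat p x = 0 := by
  obtain ⟨σ, e, hσ, rfl⟩ := hx
  rw [val_sign p hσ, val_SU_prod hb p]
  refine Finset.sum_eq_zero fun v _ => ?_
  have : Fact (b v).Prime := ⟨hb v⟩
  rw [padicValRat.of_nat, padicValNat_primes (Ne.symm (hpb v))]
  simp

/-- at primes in `b` the valuation is the exponent -/
theorem val_SU_in {s : ℕ} {b : Fin s → ℕ} (hb : ∀ v, (b v).Prime) (hinj : Function.Injective b)
    {σ : ℤ} (hσ : σ = 1 ∨ σ = -1) (e : Fin s → ℤ) (w : Fin s) :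
    padicValRat (b w) (σ * ∏ v, (b v : ℚ) ^ (e v)) = e w := by
  have : Fact (b w).Prime := ⟨hb w⟩
  rw [val_sign _ hσ, val_SU_prod hb, Finset.sum_eq_single w]
  · rw [padicValRat.self (hb w).one_lt, mul_one]
  · intro v _ hv
    have : Fact (b v).Prime := ⟨hb v⟩
    rw [padicValRat.of_nat, padicValNat_primes (fun h => hv (hinj h.symm))]
    simp
  · intro h
    exact absurd (Finset.mem_univ w) h

/-- decomposition of a positive integer -/
theorem split_nat {s : ℕ} {b : Fin s → ℕ} (hb : ∀ v, (b v).Prime) (M : ℕ) (hM : M ≠ 0) :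
    ∃ (N M' : ℕ), M = N * M' ∧ 0 < N ∧ M' ≠ 0 ∧ IsSU b (M' : ℚ) ∧ ∀ v, Nat.Coprime N (b v) := by
  have hb0 : ∀ v, b v ≠ 0 := fun v => (hb v).ne_zero
  induction M using induction_on_primes with
  | zero => exact absurd rfl hM
  | one =>
    refine ⟨1, 1, rfl, one_pos, one_ne_zero, ?_, fun v => Nat.coprime_one_left _⟩
    simpa using IsSU.one b
  | prime_mul p a hp ih =>
    have ha : a ≠ 0 := fun h0 => hM (by rw [h0, mul_zero])
    obtain ⟨N, M', h1, h2, h3, h4, h5⟩ := ih ha
    by_cases hpb : ∃ v, b v = p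
    · obtain ⟨v, rfl⟩ := hpb
      refine ⟨N, b v * M', by rw [h1]; ring, h2, mul_ne_zero (hb0 v) h3, ?_, h5⟩
      push_cast
      exact IsSU.mul hb0 (IsSU.base b v) h4
    · refine ⟨p * N, M', by rw [h1]; ring, mul_pos hp.pos h2, h3, h4, fun v => ?_⟩
      refine Nat.Coprime.mul_left ?_ (h5 v)
      rw [Nat.coprime_primes hp (hb v)]
      intro h
      exact hpb ⟨v, h.symm⟩

theorem decomp : DecompStmt := by
  intro s b hb hinj x hx hI
  obtain ⟨k, e, hk⟩ := hI
  have hb0 : ∀ v, b v ≠ 0 := fun v => (hb v).ne_zero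
  have hP0 : (∏ v, (b v : ℚ)) ^ e ≠ 0 :=
    pow_ne_zero _ (Finset.prod_ne_zero_iff.2 fun v _ => by exact_mod_cast hb0 v)
  have hk0 : k ≠ 0 := by
    intro h
    rw [h, Int.cast_zero] at hk
    exact (mul_ne_zero hx hP0) hk
  obtain ⟨N, M', h1, h2, h3, h4, h5⟩ := split_nat hb k.natAbs (Int.natAbs_ne_zero.2 hk0)
  have hPSU : IsSU b ((∏ v, (b v : ℚ)) ^ e) := by
    refine ⟨1, fun _ => e, Or.inl rfl, ?_⟩
    rw [Int.cast_one, one_mul, ← Finset.prod_pow]
    exact Finset.prod_congr rfl fun v _ => (zpow_natCast _ _).symm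
  have hNM : ∃ σ : ℚ, (σ = 1 ∨ σ = -1) ∧ (k : ℚ) = N * (σ * M') := by
    rcases Int.natAbs_eq k with h | h
    · refine ⟨1, Or.inl rfl, ?_⟩
      rw [h, h1]
      push_cast
      ring
    · refine ⟨-1, Or.inr rfl, ?_⟩
      rw [h, h1]
      push_cast
      ring
  obtain ⟨σ, hσ, hkN⟩ := hNM
  refine ⟨N, σ * M' * ((∏ v, (b v : ℚ)) ^ e)⁻¹, h2, ?_, ?_, h5⟩
  · refine IsSU.mul hb0 ?_ (IsSU.inv hPSU)
    rcases hσ with h | h
    · rw [h, one_mul]
      exact h4
    · rw [h, neg_one_mul]
      exact IsSU.neg h4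
  · rw [hkN] at hk
    field_simp
    linarith

theorem maxExp : MaxExpStmt := by
  intro s b hb k N hN hNb B hB i hBi hmax
  classical
  have hN0 : ∀ j, N j ≠ 0 := fun j => (hN j).ne'
  have hg0 : ∀ j ∈ Finset.univ.erase i, Nat.gcd (N i) (N j) ≠ 0 := fun j _ =>
    Nat.gcd_ne_zero_left (hN0 i)
  rw [← Nat.factorization_prime_le_iff_dvd (hN0 i) (Finset.prod_ne_zero_iff.2 hg0)]
  intro p hp
  have : Fact p.Prime := ⟨hp⟩
  by_cases hpb : ∃ v, b v = p
  · obtain ⟨v, rfl⟩ := hpb
    have h1 : ¬ b v ∣ N i := by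
      intro h
      have h2 := Nat.Coprime.symm (hNb i v)
      exact (hp.coprime_iff_not_dvd.1 h2) h
    rw [Nat.factorization_eq_zero_of_not_dvd h1]
    exact Nat.zero_le _
  · push Not at hpb
    rw [Nat.factorization_prod_apply hg0]
    have h1 : ∀ j ∈ Finset.univ.erase i, (Nat.gcd (N i) (N j)).factorization p =
        min ((N i).factorization p) ((N j).factorization p) := by
      intro j _
      rw [Nat.factorization_gcd (hN0 i) (hN0 j)]
      rfl
    rw [Finset.sum_congr rfl h1]
    by_cases hex : ∃ j ∈ Finset.univ.erase i, (N i).factorization p ≤ (N j).factorization p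
    · obtain ⟨j, hj, hle⟩ := hex
      calc (N i).factorization p = min ((N i).factorization p) ((N j).factorization p) :=
            (min_eq_left hle).symm
        _ ≤ _ := Finset.single_le_sum
            (f := fun j => min ((N i).factorization p) ((N j).factorization p))
            (fun _ _ => Nat.zero_le _) hj
    · push Not at hex
      have h2 : ∑ j ∈ Finset.univ.erase i, min ((N i).factorization p) ((N j).factorization p) =
          ∑ j ∈ Finset.univ.erase i, (N j).factorization p :=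
        Finset.sum_congr rfl fun j hj => min_eq_right (hex j hj).le
      rw [h2]
      -- the relation
      have h3 := val_SU_out hb p hpb hB
      rw [val_prod p Finset.univ _ (fun j _ => zpow_ne_zero _ (by exact_mod_cast hN0 j))] at h3
      have h4 : ∀ j ∈ (Finset.univ : Finset (Fin k)), padicValRat p ((N j : ℚ) ^ (B j)) =
          B j * ((N j).factorization p : ℤ) := by
        intro j _
        rw [padicValRat.zpow, padicValRat.of_nat, Nat.factorization_def _ hp]
      rw [Finset.sum_congr rfl h4, ← Finset.add_sum_erase _ _ (Finset.mem_univ i)] at h3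
      have h5 : |B i| * ((N i).factorization p : ℤ) ≤
          |B i| * ∑ j ∈ Finset.univ.erase i, ((N j).factorization p : ℤ) := by
        calc |B i| * ((N i).factorization p : ℤ) = |B i * ((N i).factorization p : ℤ)| := by
              rw [abs_mul, Nat.abs_cast]
          _ = |∑ j ∈ Finset.univ.erase i, B j * ((N j).factorization p : ℤ)| := by
              have h6 : B i * ((N i).factorization p : ℤ) =
                  -∑ j ∈ Finset.univ.erase i, B j * ((N j).factorization p : ℤ) := by linarith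
              rw [h6, abs_neg]
          _ ≤ ∑ j ∈ Finset.univ.erase i, |B j * ((N j).factorization p : ℤ)| :=
              Finset.abs_sum_le_sum_abs _ _
          _ ≤ ∑ j ∈ Finset.univ.erase i, |B i| * ((N j).factorization p : ℤ) := by
              refine Finset.sum_le_sum fun j _ => ?_
              rw [abs_mul, Nat.abs_cast]
              exact mul_le_mul_of_nonneg_right (hmax j) (Int.natCast_nonneg _)
          _ = _ := by rw [Finset.mul_sum]
      have h6 : ((N i).factorization p : ℤ) ≤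
          ∑ j ∈ Finset.univ.erase i, ((N j).factorization p : ℤ) :=
        le_of_mul_le_mul_left h5 (abs_pos.2 hBi)
      exact_mod_cast h6

theorem intUnit : IntUnitStmt := by
  intro s b hb hinj z hz
  obtain ⟨σ, e, hσ, hze⟩ := hz
  have he : ∀ v, 0 ≤ e v := by
    intro v
    have h1 := val_SU_in hb hinj hσ e v
    rw [← hze, padicValRat.of_int] at h1
    rw [← h1]
    exact Int.natCast_nonneg _
  have hz2 : (z : ℚ) = σ * ∏ v, (b v : ℚ) ^ (e v).toNat := by
    rw [hze]
    congr 1
    refine Finset.prod_congr rfl fun v _ => ?_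
    rw [← zpow_natCast, Int.toNat_of_nonneg (he v)]
  have hz3 : z = σ * ∏ v, (b v : ℤ) ^ (e v).toNat := by exact_mod_cast hz2
  refine ⟨fun v => (e v).toNat, ?_, ?_⟩
  · rw [hz3]
    push_cast
    rw [abs_mul]
    have h1 : |(σ : ℝ)| = 1 := by rcases hσ with h | h <;> simp [h]
    rw [h1, one_mul, abs_of_nonneg]
    exact Finset.prod_nonneg fun v _ => by positivity
  · intro v
    rw [hz3]
    exact Dvd.dvd.mul_left (Finset.dvd_prod_of_mem _ (Finset.mem_univ v)) _

theorem numDen : NumDenStmt := by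
  intro s b hb hinj x hx
  have hb0 : ∀ v, b v ≠ 0 := fun v => (hb v).ne_zero
  have hx0 : x ≠ 0 := by
    obtain ⟨σ, e, hσ, rfl⟩ := hx
    refine mul_ne_zero ?_ (Finset.prod_ne_zero_iff.2 fun v _ =>
      zpow_ne_zero _ (by exact_mod_cast hb0 v))
    rcases hσ with h | h <;> simp [h]
  have hnum0 : x.num.natAbs ≠ 0 := by
    rw [Int.natAbs_ne_zero, Ne, Rat.num_eq_zero]
    exact hx0
  have hden : IsSU b ((x.den : ℕ) : ℚ) := by
    refine IsSU.nat hb0 _ x.den_ne_zero fun p hp hpd => ?_
    by_contra hcon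
    push Not at hcon
    have : Fact p.Prime := ⟨hp⟩
    have h1 := val_SU_out hb p hcon hx
    have h2 : ¬ p ∣ x.num.natAbs := by
      intro h
      have h3 := Nat.dvd_gcd h hpd
      rw [Nat.Coprime.gcd_eq_one x.reduced] at h3
      exact hp.one_lt.ne' (Nat.dvd_one.1 h3)
    have h3 : padicValRat p x = padicValInt p x.num - padicValNat p x.den := rfl
    have h4 : padicValInt p x.num = 0 := padicValNat.eq_zero_of_not_dvd h2
    have h5 : 1 ≤ padicValNat p x.den := one_le_padicValNat_of_dvd x.den_ne_zero hpd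
    rw [h3, h4] at h1
    omega
  have hnumA : IsSU b ((x.num.natAbs : ℕ) : ℚ) := by
    refine IsSU.nat hb0 _ hnum0 fun p hp hpd => ?_
    by_contra hcon
    push Not at hcon
    have : Fact p.Prime := ⟨hp⟩
    have h1 := val_SU_out hb p hcon hx
    have h2 : ¬ p ∣ x.den := by
      intro h
      have h3 := Nat.dvd_gcd hpd h
      rw [Nat.Coprime.gcd_eq_one x.reduced] at h3
      exact hp.one_lt.ne' (Nat.dvd_one.1 h3)
    have h3 : padicValRat p x = padicValInt p x.num - padicValNat p x.den := rfl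
    have h4 : padicValNat p x.den = 0 := padicValNat.eq_zero_of_not_dvd h2
    have h5 : 1 ≤ padicValNat p x.num.natAbs := one_le_padicValNat_of_dvd hnum0 hpd
    have h6 : padicValInt p x.num = padicValNat p x.num.natAbs := rfl
    rw [h3, h4, h6] at h1
    omega
  refine ⟨?_, hden⟩
  rcases Int.natAbs_eq x.num with h4 | h4
  · have h5 : (x.num : ℚ) = ((x.num.natAbs : ℕ) : ℚ) := by
      conv_lhs => rw [h4]
      rw [Int.cast_natCast]
    rw [h5]
    exact hnumA
  · have h5 : (x.num : ℚ) = -((x.num.natAbs : ℕ) : ℚ) := by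
      conv_lhs => rw [h4]
      rw [Int.cast_neg, Int.cast_natCast]
    rw [h5]
    exact IsSU.neg hnumA

end Pool.Agent.TH551.ZP.AR
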