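import Mathlib
import Pool.Agent.TH551.ZP.Mono
import Pool.Agent.TH551.SU.Main

/-!
# Project ZP: multiplicatively dependent values at S-unit points
-/

set_option autoImplicit false

namespace Pool.Agent.TH551.ZP.Fin'

open Filter Topology Pool.Agent.TH932.Germs Pool.Agent.TH551.SU Pool.Agent.TH551.SU.Ht
open Pool.Agent.TH551.SU.Main Pool.Agent.TH551.ZP Pool.Agent.TH551.ZP.GT

/-- values of polynomials at S-integers are S-integers up to a constant independent of `S` -/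
lemma exists_den' {n : ℕ} (p : MvPolynomial (Fin n) ℚ) :
    ∃ δ : ℕ, δ ≠ 0 ∧ ∀ (s : ℕ) (b : Fin s → ℕ) (u : Fin n → ℚ), (∀ j, IntS b (u j)) →
      IntS b ((δ : ℚ) * MvPolynomial.aeval u p) := by
  induction p using MvPolynomial.induction_on with
  | C a =>
    refine ⟨a.den, a.den_ne_zero, fun s b u _ => ?_⟩
    rw [MvPolynomial.aeval_C]
    have h1 : (a.den : ℚ) * algebraMap ℚ ℚ a = a.num := by
      show (a.den : ℚ) * a = a.num
      rw [mul_comm, Rat.mul_den_eq_num]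
    rw [h1]
    exact IntS.int b _
  | add p q hp hq =>
    obtain ⟨δ, hδ, h1⟩ := hp
    obtain ⟨δ', hδ', h2⟩ := hq
    refine ⟨δ * δ', mul_ne_zero hδ hδ', fun s b u hu => ?_⟩
    have h3 : ((δ * δ' : ℕ) : ℚ) * MvPolynomial.aeval u (p + q) =
        ((δ' : ℤ) : ℚ) * ((δ : ℚ) * MvPolynomial.aeval u p) +
          ((δ : ℤ) : ℚ) * ((δ' : ℚ) * MvPolynomial.aeval u q) := by
      rw [map_add]
      push_cast
      ring
    rw [h3]
    exact IntS.add (IntS.mul (IntS.int b _) (h1 s b u hu)) (IntS.mul (IntS.int b _) (h2 s b u hu))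
  | mul_X p i hp =>
    obtain ⟨δ, hδ, h1⟩ := hp
    refine ⟨δ, hδ, fun s b u hu => ?_⟩
    rw [map_mul, MvPolynomial.aeval_X, ← mul_assoc]
    exact IntS.mul (h1 s b u hu) (hu i)

lemma IsSU.prod' {s : ℕ} {b : Fin s → ℕ} (hb : ∀ v, b v ≠ 0) {ι : Type} (A : Finset ι)
    (x : ι → ℚ) (h : ∀ i ∈ A, IsSU b (x i)) : IsSU b (∏ i ∈ A, x i) := by
  classical
  induction A using Finset.induction_on with
  | empty => simpa using IsSU.one b
  | insert a A ha ih =>
    rw [Finset.prod_insert ha]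
    exact IsSU.mul hb (h a (Finset.mem_insert_self _ _))
      (ih fun i hi => h i (Finset.mem_insert_of_mem hi))

lemma IsSU.pow' {s : ℕ} {b : Fin s → ℕ} (hb : ∀ v, b v ≠ 0) {x : ℚ} (h : IsSU b x) (k : ℕ) :
    IsSU b (x ^ k) := by
  induction k with
  | zero => simpa using IsSU.one b
  | succ k ih =>
    rw [pow_succ]
    exact IsSU.mul hb ih h

lemma IsSU.zpow' {s : ℕ} {b : Fin s → ℕ} (hb : ∀ v, b v ≠ 0) {x : ℚ} (h : IsSU b x) (k : ℤ) :
    IsSU b (x ^ k) := by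
  obtain ⟨k, rfl | rfl⟩ := k.eq_nat_or_neg
  · rw [zpow_natCast]
    exact IsSU.pow' hb h k
  · rw [zpow_neg, zpow_natCast]
    exact IsSU.inv (IsSU.pow' hb h k)

lemma IsSU.ne' {s : ℕ} {b : Fin s → ℕ} (hb : ∀ v, b v ≠ 0) {x : ℚ} (h : IsSU b x) : x ≠ 0 := by
  obtain ⟨σ, e, hσ, rfl⟩ := h
  refine mul_ne_zero ?_ (Finset.prod_ne_zero_iff.2 fun v _ => zpow_ne_zero _ ?_)
  · rcases hσ with h | h <;> simp [h]
  · exact_mod_cast hb v

/-- units are integral -/
lemma IsSU.intS (hnd : NumDenStmt) (hiu : IntUnitStmt) {s : ℕ} {b : Fin s → ℕ}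
    (hb : ∀ v, (b v).Prime) (hbi : Function.Injective b) {x : ℚ} (h : IsSU b x) : IntS b x := by
  obtain ⟨h1, h2⟩ := hnd s b hb hbi x h
  obtain ⟨e, he, -⟩ := hiu s b hb hbi (x.den : ℤ) (by exact_mod_cast h2)
  have h3 := IntS.inv_int hb (x.den : ℤ) e he
  have h4 := IntS.mul (IntS.int b x.num) h3
  rw [Int.cast_natCast, ← div_eq_mul_inv, Rat.num_div_den] at h4
  exact h4

/-- the size of a rational number -/
noncomputable def sz (x : ℚ) : ℝ := Real.log (max |(x.num : ℝ)| (x.den : ℝ))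

lemma sz_nonneg (x : ℚ) : 0 ≤ sz x := by
  refine Real.log_nonneg (le_max_of_le_right ?_)
  exact_mod_cast x.den_pos

lemma le_exp_sz (x : ℚ) : max |(x.num : ℝ)| (x.den : ℝ) = Real.exp (sz x) := by
  unfold sz
  rw [Real.exp_log]
  exact lt_max_of_lt_right (by exact_mod_cast x.den_pos)

/-- there are finitely many rational numbers of bounded size -/
lemma sz_finite (B : ℝ) : {x : ℚ | sz x ≤ B}.Finite := by
  obtain ⟨M, hM⟩ : ∃ M : ℕ, Real.exp B ≤ M := exists_nat_ge _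
  refine Set.Finite.subset (((Set.finite_Icc (-(M : ℤ)) M).prod (Set.finite_Icc (0 : ℤ) M)).image
    (fun q : ℤ × ℤ => (q.1 : ℚ) / q.2)) ?_
  intro x hx
  have h1 : max |(x.num : ℝ)| (x.den : ℝ) ≤ M := by
    rw [le_exp_sz]
    exact (Real.exp_le_exp.2 hx).trans hM
  have h2 : |(x.num : ℝ)| ≤ M := (le_max_left _ _).trans h1
  have h3 : (x.den : ℝ) ≤ M := (le_max_right _ _).trans h1
  refine ⟨(x.num, (x.den : ℤ)), ⟨?_, ?_⟩, ?_⟩
  · have h4 : |x.num| ≤ (M : ℤ) := by exact_mod_cast h2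
    exact ⟨(abs_le.1 h4).1, (abs_le.1 h4).2⟩
  · refine ⟨by positivity, ?_⟩
    show (x.den : ℤ) ≤ M
    exact_mod_cast h3
  · show (x.num : ℚ) / ((x.den : ℤ) : ℚ) = x
    rw [Int.cast_natCast, Rat.num_div_den]

/-- homogeneous coordinates of a point -/
def XX {n : ℕ} (u : Fin n → ℚ) : Fin (n + 1) → ℤ :=
  Fin.cons (∏ j, ((u j).den : ℤ)) fun j => (u j).num * ∏ i ∈ Finset.univ.erase j, ((u i).den : ℤ)

lemma XX_div {n : ℕ} (u : Fin n → ℚ) (j : Fin n) :
    u j = (XX u j.succ : ℚ) / (XX u 0 : ℚ) := by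
  unfold XX
  rw [Fin.cons_succ, Fin.cons_zero, ← Finset.mul_prod_erase _ _ (Finset.mem_univ j)]
  push_cast
  have h1 : (∏ i ∈ Finset.univ.erase j, ((u i).den : ℚ)) ≠ 0 :=
    Finset.prod_ne_zero_iff.2 fun i _ => by exact_mod_cast (u i).den_ne_zero
  rw [mul_div_mul_right _ _ h1, Rat.num_div_den]

lemma XX_log {n : ℕ} (u : Fin n → ℚ) (hu : ∀ j, u j ≠ 0) (i : Fin (n + 1)) :
    Real.log |(XX u i : ℝ)| ≤ ∑ j, sz (u j) := by
  have hd : ∀ j, (0 : ℝ) < ((u j).den : ℝ) := fun j => by exact_mod_cast (u j).den_pos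
  have hld : ∀ j, Real.log ((u j).den : ℝ) ≤ sz (u j) := fun j =>
    Real.log_le_log (hd j) (le_max_right _ _)
  unfold XX
  induction i using Fin.cases with
  | zero =>
    rw [Fin.cons_zero]
    push_cast
    rw [Finset.abs_prod, Real.log_prod (fun j _ => abs_ne_zero.2 (hd j).ne')]
    refine Finset.sum_le_sum fun j _ => ?_
    rw [abs_of_pos (hd j)]
    exact hld j
  | succ j =>
    rw [Fin.cons_succ]
    push_cast
    have hn : |((u j).num : ℝ)| ≠ 0 := abs_ne_zero.2 (by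
      exact_mod_cast Rat.num_ne_zero.2 (hu j))
    rw [abs_mul, Finset.abs_prod, Real.log_mul hn (Finset.prod_ne_zero_iff.2 fun i _ =>
      abs_ne_zero.2 (hd i).ne'), Real.log_prod (fun j _ => abs_ne_zero.2 (hd j).ne'),
      ← Finset.add_sum_erase _ _ (Finset.mem_univ j)]
    refine add_le_add ?_ (Finset.sum_le_sum fun i _ => ?_)
    · exact Real.log_le_log (lt_of_le_of_ne (abs_nonneg _) hn.symm) (le_max_left _ _)
    · rw [abs_of_pos (hd i)]
      exact hld i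

lemma XX_unit (hnd : NumDenStmt) {s : ℕ} {b : Fin s → ℕ}
    (hb : ∀ v, (b v).Prime) (hbi : Function.Injective b) {n : ℕ} (u : Fin n → ℚ)
    (h : ∀ j, IsSU b (u j)) (i : Fin (n + 1)) : IsSU b (XX u i : ℚ) := by
  have hb0 : ∀ v, b v ≠ 0 := fun v => (hb v).ne_zero
  unfold XX
  induction i using Fin.cases with
  | zero =>
    rw [Fin.cons_zero]
    push_cast
    exact IsSU.prod' hb0 _ _ fun j _ => (hnd s b hb hbi _ (h j)).2
  | succ j =>
    rw [Fin.cons_succ]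
    push_cast
    exact IsSU.mul hb0 (hnd s b hb hbi _ (h j)).1
      (IsSU.prod' hb0 _ _ fun i _ => (hnd s b hb hbi _ (h i)).2)

/-- a generic sequence of bad points -/
lemma exists_generic {n : ℕ} (P : (Fin (n + 1) → ℚ) → Prop)
    (h : ∀ Φ : MvPolynomial (Fin (n + 1)) ℚ, Φ ≠ 0 → ∃ u, P u ∧ MvPolynomial.aeval u Φ ≠ 0) :
    ∃ u : ℕ → Fin (n + 1) → ℚ, (∀ t, P (u t)) ∧
      ∀ φ : MvPolynomial (Fin (n + 1)) ℚ, φ ≠ 0 →
        ∀ᶠ t in atTop, MvPolynomial.aeval (u t) φ ≠ 0 := by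
  classical
  have hcount : Countable (MvPolynomial (Fin (n + 1)) ℚ) := by
    rw [← Cardinal.mk_le_aleph0_iff]
    refine MvPolynomial.cardinalMk_le_max.trans ?_
    simp
  have hnon : Nonempty {φ : MvPolynomial (Fin (n + 1)) ℚ // φ ≠ 0} := ⟨⟨1, one_ne_zero⟩⟩
  obtain ⟨F, hF⟩ := exists_surjective_nat {φ : MvPolynomial (Fin (n + 1)) ℚ // φ ≠ 0}
  have h1 : ∀ t : ℕ, (∏ q ∈ Finset.range (t + 1), (F q : MvPolynomial (Fin (n + 1)) ℚ)) ≠ 0 :=
    fun t => Finset.prod_ne_zero_iff.2 fun q _ => (F q).2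
  choose u hu1 hu2 using fun t => h _ (h1 t)
  refine ⟨u, hu1, fun φ hφ => ?_⟩
  obtain ⟨q, hq⟩ := hF ⟨φ, hφ⟩
  filter_upwards [eventually_ge_atTop q] with t ht
  have h2 := hu2 t
  rw [map_prod] at h2
  have h3 := Finset.prod_ne_zero_iff.1 h2 q (Finset.mem_range_succ_iff.2 ht)
  rw [hq] at h3
  exact h3

lemma zpow_sum' {x : ℚ} (hx : x ≠ 0) {ι : Type} (A : Finset ι) (f : ι → ℤ) :
    x ^ (∑ i ∈ A, f i) = ∏ i ∈ A, x ^ (f i) := by
  classical
  induction A using Finset.induction_on with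
  | empty => simp
  | insert a A ha ih => rw [Finset.sum_insert ha, Finset.prod_insert ha, zpow_add₀ hx, ih]

/-- **Dependent values at S-unit points.** -/
theorem main (hgcd : GcdStmt) (hfree : FreeStmt) (hdec : DecompStmt) (hmax : MaxExpStmt)
    (hiu : IntUnitStmt) (hnd : NumDenStmt) (n k m : ℕ)
    (p : Fin k → MvPolynomial (Fin (n + 1)) ℚ) (hfull : ∀ κ, Full (p κ))
    (hcop : ∀ κ κ', κ ≠ κ' → IsRelPrime (p κ) (p κ'))
    (y : Fin m → ℚ) (hy : ∀ i, y i ≠ 0) (A : Fin m → Fin (n + 1) → ℤ) (E : Fin m → Fin k → ℤ)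
    (hE : LinearIndependent ℤ E) (Γ : Subgroup ℚˣ) (hΓ : Γ.FG) :
    ∃ Φ : MvPolynomial (Fin (n + 1)) ℚ, Φ ≠ 0 ∧ ∀ u : Fin (n + 1) → Γ,
      (∀ κ, MvPolynomial.aeval (fun j => ((u j : ℚˣ) : ℚ)) (p κ) ≠ 0) →
      ∀ c : Fin m → ℤ, c ≠ 0 → ∀ γ ∈ Γ,
        ∏ i, (y i * (∏ j, ((u j : ℚˣ) : ℚ) ^ (A i j)) *
          ∏ κ, (MvPolynomial.aeval (fun j => ((u j : ℚˣ) : ℚ)) (p κ)) ^ (E i κ)) ^ (c i) =
            ((γ : ℚˣ) : ℚ) →
        MvPolynomial.aeval (fun j => ((u j : ℚˣ) : ℚ)) Φ = 0 := by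
  classical
  by_contra hcon
  push Not at hcon
  -- the primes
  choose δ hδ0 hδ using fun κ => exists_den' (p κ)
  set T : Finset ℚˣ := (Finset.univ.image fun i : Fin m => Units.mk0 (y i) (hy i)) ∪
    (Finset.univ.image fun κ : Fin k => Units.mk0 ((δ κ : ℚ)) (by exact_mod_cast hδ0 κ)) with hT
  obtain ⟨T0, hT0⟩ := hΓ
  obtain ⟨s, b, hb, hbi, hΓb⟩ := exists_base (Subgroup.closure ((T0 ∪ T : Finset ℚˣ) : Set ℚˣ))
    ⟨T0 ∪ T, rfl⟩
  have hb0 : ∀ v, b v ≠ 0 := fun v => (hb v).ne_zero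
  have hΓ' : ∀ g ∈ Γ, IsSU b ((g : ℚˣ) : ℚ) := by
    intro g hg
    refine hΓb g ?_
    rw [← hT0] at hg
    refine Subgroup.closure_mono ?_ hg
    intro x hx
    exact Finset.mem_coe.2 (Finset.mem_union_left _ (Finset.mem_coe.1 hx))
  have hyb : ∀ i, IsSU b (y i) := by
    intro i
    refine hΓb (Units.mk0 (y i) (hy i)) (Subgroup.subset_closure ?_)
    exact Finset.mem_coe.2 (Finset.mem_union_right _ (Finset.mem_union_left _
      (Finset.mem_image_of_mem _ (Finset.mem_univ i))))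
  have hδb : ∀ κ, IsSU b (δ κ : ℚ) := by
    intro κ
    refine hΓb (Units.mk0 ((δ κ : ℚ)) (by exact_mod_cast hδ0 κ)) (Subgroup.subset_closure ?_)
    exact Finset.mem_coe.2 (Finset.mem_union_right _ (Finset.mem_union_right _
      (Finset.mem_image.2 ⟨κ, Finset.mem_univ κ, rfl⟩)))
  -- the bad points
  obtain ⟨u, hbad, hgen⟩ := exists_generic (n := n) (fun u => (∀ j, IsSU b (u j)) ∧
    (∀ κ, MvPolynomial.aeval u (p κ) ≠ 0) ∧ ∃ c : Fin m → ℤ, c ≠ 0 ∧
      IsSU b (∏ i, (y i * (∏ j, (u j) ^ (A i j)) *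
          ∏ κ, (MvPolynomial.aeval u (p κ)) ^ (E i κ)) ^ (c i))) (fun Φ hΦ => by
    obtain ⟨u, h1, c, hc, γ, hγ, h2, h3⟩ := hcon Φ hΦ
    exact ⟨fun j => ((u j : ℚˣ) : ℚ), ⟨fun j => hΓ' _ (u j).2, h1, c, hc, by
      rw [h2]; exact hΓ' γ hγ⟩, h3⟩)
  have huS : ∀ t j, IsSU b (u t j) := fun t => (hbad t).1
  have hpu : ∀ t κ, MvPolynomial.aeval (u t) (p κ) ≠ 0 := fun t => (hbad t).2.1
  choose c hc hcS using fun t => (hbad t).2.2
  have hu0 : ∀ t j, u t j ≠ 0 := fun t j => IsSU.ne' hb0 (huS t j)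
  have huI : ∀ t j, IntS b (u t j) := fun t j => IsSU.intS hnd hiu hb hbi (huS t j)
  -- decomposition
  have hdec' : ∀ t κ, ∃ (N : ℕ) (w : ℚ), 0 < N ∧ IsSU b w ∧
      MvPolynomial.aeval (u t) (p κ) = N * w ∧ ∀ v, Nat.Coprime N (b v) := by
    intro t κ
    obtain ⟨N, w, hN, hw, hx, hcp⟩ := hdec s b hb hbi ((δ κ : ℚ) * MvPolynomial.aeval (u t) (p κ))
      (mul_ne_zero (by exact_mod_cast hδ0 κ) (hpu t κ)) (hδ κ s b (u t) (huI t))
    refine ⟨N, w * (δ κ : ℚ)⁻¹, hN, IsSU.mul hb0 hw (IsSU.inv (hδb κ)), ?_, hcp⟩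
    have h1 : (δ κ : ℚ) ≠ 0 := by exact_mod_cast hδ0 κ
    field_simp
    linarith
  choose N w hN hw hNw hNb using hdec'
  -- the exponents
  set B : ℕ → Fin k → ℤ := fun t κ => ∑ i, c t i * E i κ with hB
  have hB0 : ∀ t, B t ≠ 0 := by
    intro t h0
    apply hc t
    have h1 : ∑ i, c t i • E i = 0 := by
      funext κ
      rw [Finset.sum_apply]
      simp only [Pi.smul_apply, smul_eq_mul]
      exact congrFun h0 κ
    funext i
    exact Fintype.linearIndependent_iff.1 hE (c t) h1 i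
  have hBS : ∀ t, IsSU b (∏ κ, (N t κ : ℚ) ^ (B t κ)) := by
    intro t
    set M : ℚ := ∏ i, (y i * (∏ j, (u t j) ^ (A i j)) * ∏ κ, (w t κ) ^ (E i κ)) ^ (c t i) with hM
    have hMS : IsSU b M := by
      refine IsSU.prod' hb0 _ _ fun i _ => IsSU.zpow' hb0 ?_ _
      refine IsSU.mul hb0 (IsSU.mul hb0 (hyb i) ?_) ?_
      · exact IsSU.prod' hb0 _ _ fun j _ => IsSU.zpow' hb0 (huS t j) _
      · exact IsSU.prod' hb0 _ _ fun κ _ => IsSU.zpow' hb0 (hw t κ) _
    have h1 : ∏ i, (y i * (∏ j, (u t j) ^ (A i j)) *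
        ∏ κ, (MvPolynomial.aeval (u t) (p κ)) ^ (E i κ)) ^ (c t i) =
        (∏ κ, (N t κ : ℚ) ^ (B t κ)) * M := by
      have hN0 : ∀ κ, (N t κ : ℚ) ≠ 0 := fun κ => by exact_mod_cast (hN t κ).ne'
      have h2 : ∏ κ, (N t κ : ℚ) ^ (B t κ) = ∏ i, (∏ κ, (N t κ : ℚ) ^ (E i κ)) ^ (c t i) := by
        simp only [← Finset.prod_zpow]
        rw [Finset.prod_comm]
        refine Finset.prod_congr rfl fun κ _ => ?_
        rw [hB]
        simp only [← zpow_mul]
        rw [zpow_sum' (hN0 κ)]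
        exact Finset.prod_congr rfl fun i _ => by rw [mul_comm]
      rw [h2, hM, ← Finset.prod_mul_distrib]
      refine Finset.prod_congr rfl fun i _ => ?_
      rw [← mul_zpow]
      congr 1
      have h3 : ∏ κ, (MvPolynomial.aeval (u t) (p κ)) ^ (E i κ) =
          (∏ κ, (N t κ : ℚ) ^ (E i κ)) * ∏ κ, (w t κ) ^ (E i κ) := by
        rw [← Finset.prod_mul_distrib]
        refine Finset.prod_congr rfl fun κ _ => ?_
        rw [hNw, mul_zpow]
      rw [h3]
      ring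
    have h2 := hcS t
    rw [h1] at h2
    have h3 := IsSU.mul hb0 h2 (IsSU.inv hMS)
    rwa [mul_assoc, mul_inv_cancel₀ (IsSU.ne' hb0 hMS), mul_one] at h3
  -- the size
  set h : ℕ → ℝ := fun t => ∑ j, sz (u t j) with hh
  have hht : Tendsto h atTop atTop := by
    rw [tendsto_atTop]
    intro B0
    have hfin := sz_finite B0
    have h1 : ∀ᶠ t in atTop, ∀ q ∈ hfin.toFinset, u t 0 ≠ q := by
      rw [Finset.eventually_all]
      intro q _
      have h2 : (MvPolynomial.X 0 - MvPolynomial.C q : MvPolynomial (Fin (n + 1)) ℚ) ≠ 0 := by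
        intro h3
        have h4 := congrArg (MvPolynomial.eval (fun _ => q + 1)) h3
        simp at h4
      filter_upwards [hgen _ h2] with t ht h3
      apply ht
      rw [map_sub, MvPolynomial.aeval_X, MvPolynomial.aeval_C, h3]
      exact sub_self q
    filter_upwards [h1] with t ht
    by_contra h2
    push Not at h2
    have h3 : sz (u t 0) ≤ h t := Finset.single_le_sum (f := fun j => sz (u t j))
      (fun j _ => sz_nonneg _) (Finset.mem_univ 0)
    exact ht (u t 0) (hfin.mem_toFinset.2 (h3.trans h2.le)) rfl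
  have hp0 : ∀ κ, p κ ≠ 0 := by
    intro κ h0
    apply hpu 0 κ
    rw [h0, map_zero]
  -- the greatest common divisors
  choose e he hed using fun t i =>
    hiu s b hb hbi (XX (u t) i) (XX_unit hnd hb hbi (u t) (huS t) i)
  have hgcd' : ∀ κ κ', κ ≠ κ' → ∀ ε : ℝ, 0 < ε → ∀ᶠ t in atTop,
      (Nat.gcd (N t κ) (N t κ') : ℝ) ≤ Real.exp (ε * h t) := by
    intro κ κ' hne ε hε
    have h1 := hgcd s b hb hbi n (p κ) (p κ') (hp0 κ) (hp0 κ') (hcop κ κ' hne)
      (fun t => XX (u t)) (fun t v i => e t i v) (fun t i => he t i) (fun t i v => hed t i v) u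
      (fun t j => XX_div (u t) j) hgen h hht (fun t i => XX_log (u t) (hu0 t) i)
      (fun t => ((Nat.gcd (N t κ) (N t κ') : ℕ) : ℤ)) ?_ ?_ ?_ ε hε
    · filter_upwards [h1] with t ht
      rw [Int.cast_natCast, abs_of_nonneg (Nat.cast_nonneg _)] at ht
      exact ht
    · intro t v
      exact Nat.isCoprime_iff_coprime.2
        (Nat.Coprime.coprime_dvd_left (Nat.gcd_dvd_left _ _) (hNb t κ v))
    · intro t
      obtain ⟨q, hq⟩ := Nat.gcd_dvd_left (N t κ) (N t κ')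
      refine ⟨((q : ℤ) : ℚ) * w t κ, IntS.mul (IntS.int b _)
        (IsSU.intS hnd hiu hb hbi (hw t κ)), ?_⟩
      rw [hNw]
      conv_lhs => rw [hq]
      push_cast
      ring
    · intro t
      obtain ⟨q, hq⟩ := Nat.gcd_dvd_right (N t κ) (N t κ')
      refine ⟨((q : ℤ) : ℚ) * w t κ', IntS.mul (IntS.int b _)
        (IsSU.intS hnd hiu hb hbi (hw t κ')), ?_⟩
      rw [hNw]
      conv_lhs => rw [hq]
      push_cast
      ring
  -- the largest exponent
  have hmaxi : ∀ t, ∃ i : Fin k, B t i ≠ 0 ∧ ∀ j, |B t j| ≤ |B t i| := by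
    intro t
    obtain ⟨j0, hj0⟩ := Function.ne_iff.1 (hB0 t)
    have : Nonempty (Fin k) := ⟨j0⟩
    obtain ⟨i, hi⟩ := Finite.exists_max fun i => |B t i|
    refine ⟨i, fun h0 => ?_, hi⟩
    have h1 := hi j0
    rw [h0, abs_zero] at h1
    exact hj0 (abs_nonpos_iff.1 h1)
  choose it hit1 hit2 using hmaxi
  have hdvd : ∀ t, N t (it t) ∣ ∏ j ∈ Finset.univ.erase (it t), Nat.gcd (N t (it t)) (N t j) :=
    fun t => hmax s b hb k (N t) (hN t) (fun i v => hNb t i v) (B t) (hBS t) (it t) (hit1 t)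
      (hit2 t)
  obtain ⟨i, hi⟩ := SUI.const_of_ev (p := fun i t => it t = i)
    (Eventually.of_forall fun t => ⟨it t, rfl⟩)
  have hNegl : Negl h (fun t => (N t i : ℤ)) := by
    intro ε hε
    have h1 : ∀ᶠ t in atTop, ∀ j, j ≠ i → (Nat.gcd (N t i) (N t j) : ℝ) ≤
        Real.exp (ε / (k + 1) * h t) := by
      refine eventually_all.2 fun j => ?_
      by_cases hj : j = i
      · exact Eventually.of_forall fun t h2 => absurd hj h2
      · exact (hgcd' i j (Ne.symm hj) (ε / (k + 1)) (by positivity)).mono fun t ht _ => ht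
    filter_upwards [hi, ev_of_atTop h1, L_nonneg hht] with t ht1 ht2 ht3
    have h2 := hdvd t
    rw [ht1] at h2
    have h3 : N t i ≤ ∏ j ∈ Finset.univ.erase i, Nat.gcd (N t i) (N t j) :=
      Nat.le_of_dvd (Finset.prod_pos fun j _ => Nat.gcd_pos_of_pos_left _ (hN t i)) h2
    have h4 : (N t i : ℝ) ≤ ∏ j ∈ Finset.univ.erase i, (Nat.gcd (N t i) (N t j) : ℝ) := by
      exact_mod_cast h3
    rw [Int.cast_natCast, abs_of_nonneg (Nat.cast_nonneg _)]
    refine h4.trans ?_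
    refine (Finset.prod_le_prod (fun j _ => Nat.cast_nonneg _)
      (fun j hj => ht2 j (Finset.ne_of_mem_erase hj))).trans ?_
    rw [Finset.prod_const, ← Real.exp_nat_mul]
    refine Real.exp_le_exp.2 ?_
    have h5 : ((Finset.univ.erase i).card : ℝ) ≤ (k : ℝ) + 1 := by
      have h6 : (Finset.univ.erase i).card ≤ k := by
        refine (Finset.card_erase_le).trans ?_
        simp
      have h7 : ((Finset.univ.erase i).card : ℝ) ≤ (k : ℝ) := by exact_mod_cast h6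
      linarith
    have h6 : (0 : ℝ) < (k : ℝ) + 1 := by positivity
    calc ((Finset.univ.erase i).card : ℝ) * (ε / (k + 1) * h t) ≤
        ((k : ℝ) + 1) * (ε / (k + 1) * h t) :=
          mul_le_mul_of_nonneg_right h5 (by positivity)
      _ = ε * h t := by field_simp
  -- the contradiction
  refine hfree s b hb hbi n (p i) (hfull i) h hht (fun j => gm (fun t => u t j))
    (fun j => ⟨_, rfl, fun t => huS t j⟩) ?_ ?_ (gm (fun t => (N t i : ℚ))) ?_
    (gm (fun t => w t i)) ⟨_, rfl, fun t => hw t i⟩ ?_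
  · intro φ hφ
    rw [aeval_gm (fun j t => u t j), gm_ne_zero]
    exact ev_of_atTop (hgen φ hφ)
  · by_contra h0
    push Not at h0
    have hn1 : (0 : ℝ) < 2 * ((n : ℝ) + 1) := by positivity
    have h1 : ∀ᶠ t in (UU : Filter ℕ), ∀ j, sz (u t j) ≤ 1 / (2 * ((n : ℝ) + 1)) * h t := by
      refine eventually_all.2 fun j => ?_
      obtain ⟨h2, h3⟩ := (mem_KK_iff hht (fun t => u t j)).1 (h0 j)
      filter_upwards [h2 (1 / (2 * ((n : ℝ) + 1))) (by positivity),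
        h3 (1 / (2 * ((n : ℝ) + 1))) (by positivity)] with t h4 h5
      have h6 : max |((u t j).num : ℝ)| ((u t j).den : ℝ) ≤
          Real.exp (1 / (2 * ((n : ℝ) + 1)) * h t) := by
        refine max_le h4 ?_
        rw [Int.cast_natCast, abs_of_nonneg (Nat.cast_nonneg _)] at h5
        exact h5
      rw [le_exp_sz] at h6
      exact Real.exp_le_exp.1 h6
    have h2 : ∀ᶠ t in (UU : Filter ℕ), 1 ≤ h t := ev_of_atTop (hht.eventually_ge_atTop 1)
    obtain ⟨t, h3, h4⟩ := (h1.and h2).exists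
    have h5 : h t ≤ ∑ _j : Fin (n + 1), 1 / (2 * ((n : ℝ) + 1)) * h t :=
      Finset.sum_le_sum fun j _ => h3 j
    rw [Finset.sum_const, Finset.card_univ, Fintype.card_fin, nsmul_eq_mul] at h5
    push_cast at h5
    have h6 : ((n : ℝ) + 1) * (1 / (2 * ((n : ℝ) + 1)) * h t) = h t / 2 := by
      field_simp
    rw [h6] at h5
    linarith
  · exact ⟨_, fun _ => 1, hNegl, Negl.one hht, by simp, by
      congr 1
      funext t
      simp⟩
  · rw [aeval_gm (fun j t => u t j), gm_mul]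
    congr 1
    funext t
    exact hNw t i

end Pool.Agent.TH551.ZP.Fin'
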